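import Pool.Agent.Work.MP_4329d7_ag.NonRC
import Pool.Agent.Work.MP_4329d7_ag.Power

/-!
Which sets of exponents can replace the set of all positive integers in Mumford's conjecture.
-/

open Pool.Agent.Work.MP_4329d7_ag

namespace Pool.Agent.Results.MP_4329d7_ag.Exponents

/-- Let `M` be a set of positive integers. If the vanishing of `H⁰(X, (Ω¹_X)^{⊗ m})` for the
`m ∈ M` implies that `X` is rationally connected for all smooth projective `X` of dimension `D`
then `M` contains a multiple of every `n` with `1 ≤ n ≤ D`. If `M` contains a multiple of every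
positive integer, then this implication is equivalent to Mumford's conjecture in dimension `D`. -/
theorem result (D : ℕ) (M : Set ℕ) (hM : ∀ m ∈ M, 0 < m) :
    (Suffices D M → ∀ n, 1 ≤ n → n ≤ D → ∃ m ∈ M, n ∣ m) ∧
      ((∀ n, 1 ≤ n → ∃ m ∈ M, n ∣ m) → (Suffices D M ↔ Suffices D {m | 0 < m})) := by
  refine ⟨?_, fun h => suffices_iff D M hM h⟩
  intro hS n hn hnD
  by_contra hcon
  push Not at hcon
  have hD : n + (D - n) = D := by omega
  have hsm := isSmoothProjective_SI (k := D - n) hn
  rw [hD] at hsm
  exact not_rationallyConnected_SI hn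
    (hS (SIdx n (D - n)) (SI n (D - n)) hsm
      (fun m hm => noTensorDifferentials_SI hn (hcon m hm)))

end Pool.Agent.Results.MP_4329d7_ag.Exponents
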